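import Pool.Agent.Lib.MP_065e13_lc.Back
import Pool.Agent.Lib.ETR.MatPT

/-!
# MP_065e13_lc: for every `d ≥ 3` the recognition problem `BALL_d` is complete for `∃ℝ`

The definitions used in the statement are in `Pool.Agent.Lib.MP_0f8b55_lc.Defs` (decision problems,
reductions, the existential theory of the reals, `∃ℝ`-completeness, graph codes),
`Pool.Agent.Lib.MP_065e13_lc.Defs` (ball graphs) and `Pool.Agent.Lib.MP_065e13_lc.Problem`
(the problem `BALL_d`).

The proof reduces the existential theory of the reals to `BALL_d`; all steps are computable in
polynomial time.

* A formula is translated into constraints `x + y = z`, `x * y = z`, and these into a list of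
  strict comparisons of products and sums of products of positive unknowns; that approximate
  solutions of bounded norm imply exact solutions is a gap theorem for real polynomial systems.
* The comparisons are translated into a sign matrix which is the sign pattern of a real matrix of
  rank at most three if and only if the comparisons are solvable (loops of lines in the plane, in
  which the product of the slopes returns to its starting value).
* A sign matrix is translated into a graph, which is a ball graph in `ℝ^d` if and only if the
  sign matrix has sign rank at most three. A ball with centre `c` and radius `r` is represented by
  its Lie coordinates `(1, c, r, |c|² - r²)`; two balls meet if and only if a bilinear form is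
  nonpositive, and a few additional vertices cut the rank down.
-/

open Pool.Agent.Lib.MP_065e13_lc Pool.Agent.Lib.MP_0f8b55_lc Pool.Agent.Lib.ETR in
/-- For every fixed `d ≥ 3`, deciding whether a graph is the intersection graph of balls of `ℝ^d`
is complete for the existential theory of the reals. -/
theorem Pool.Agent.Results.MP_065e13_lc.BallComplete.result (d : ℕ) (hd : 3 ≤ d) :
    ERComplete (BALL d) :=
  ⟨inER_BALL d, fun _ hQ => hQ.trans (reduces_of_pt ((pt_graphOfMat d).comp pt_matOf)
    (fun φ => (matOf_iff φ).trans (graphOfMat_iff hd _)))⟩
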